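import Mathlib
import Pool.Agent.V11215.AnA
import Pool.Agent.V11215.AnB

open MeasureTheory Set Topology Filter

namespace Pool.Agent.Results.MP_4fc6a2_gt.NoAnalyticPlasticSubgroup

open Pool.Agent.V11215.AnA Pool.Agent.V11215.AnB

/-- A metric space is plastic if each non-expansive bijection onto itself is an isometry. -/
def IsPlastic (X : Type*) [MetricSpace X] : Prop :=
  ∀ f : X → X, Function.Bijective f → (∀ x y, dist (f x) (f y) ≤ dist x y) →
    ∀ x y, dist (f x) (f y) = dist x y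

/-- The chain through the line, with its two unbounded plateaus. -/
theorem exists_sigma (G : AddSubgroup ℝ) (hd : Dense (G : Set ℝ)) (hs : Pool.Agent.V11215.AnA.Small (G : Set ℝ)) :
    ∃ q₁ : ℝ, 0 < q₁ ∧ ∃ T : Set (ℝ × ℝ), (∀ r ∈ T, r.2 ∈ G) ∧
      (∀ r ∈ T, ∀ s ∈ T, Le r s ∨ Le s r) ∧
      (∀ y ∈ G, ∃ q, (y, q) ∈ T) ∧ (∀ x ∈ G, ∃ r ∈ T, r.1 + r.2 = x) ∧
      (∀ t : ℝ, t ≤ 0 → (t, 0) ∈ T) ∧ (∀ t : ℝ, 1 ≤ t → (t, q₁) ∈ T) := by
  classical
  obtain ⟨C, hCc, hC, hGC⟩ := hs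
  have hCne : C.Nonempty := by
    obtain ⟨K, hK, -⟩ := hGC G.zero_mem
    exact ⟨K, hK⟩
  obtain ⟨M, hM⟩ := hCc.exists_eq_range hCne
  have hMc : ∀ n, IsClosed (M n) := fun n => (hC (M n) (by rw [hM]; exact mem_range_self n)).1
  have hM0 : ∀ n, volume (M n) = 0 := fun n => (hC (M n) (by rw [hM]; exact mem_range_self n)).2
  have hcov : ∀ x ∈ G, ∃ n, x ∈ M n := by
    intro x hx
    obtain ⟨K, hK, hxK⟩ := hGC hx
    rw [hM] at hK
    obtain ⟨n, rfl⟩ := hK
    exact ⟨n, hxK⟩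
  obtain ⟨q₁, hq₁G, hq₁⟩ := hd.exists_mem_open isOpen_Ioi (⟨1, mem_Ioi.2 one_pos⟩ : (Ioi (0 : ℝ)).Nonempty)
  rw [mem_Ioi] at hq₁
  obtain ⟨T, hT0, hT1, hTG, hTb, hTc, hTy, hTx⟩ := exists_chain hd M hMc hM0 (p := (0, 0))
    (p' := (1, q₁)) G.zero_mem hq₁G one_pos hq₁
  refine ⟨q₁, hq₁, T ∪ ({r | r.2 = 0 ∧ r.1 ≤ 0} ∪ {r | r.2 = q₁ ∧ 1 ≤ r.1}), ?_, ?_, ?_, ?_, ?_, ?_⟩
  · rintro r (hr | hr | hr)
    · exact hTG r hr
    · rw [hr.1]; exact G.zero_mem
    · rw [hr.1]; exact hq₁G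
  · have hleft : ∀ r : ℝ × ℝ, r.2 = 0 ∧ r.1 ≤ 0 → Le r (0, 0) := by
      rintro ⟨a, b⟩ ⟨rfl, h⟩
      rcases h.eq_or_lt with h | h
      · simp only at h; subst h; exact Or.inl rfl
      · exact Or.inr ⟨h, le_rfl⟩
    have hright : ∀ r : ℝ × ℝ, r.2 = q₁ ∧ 1 ≤ r.1 → Le (1, q₁) r := by
      rintro ⟨a, b⟩ ⟨rfl, h⟩
      rcases h.eq_or_lt with h | h
      · simp only at h; subst h; exact Or.inl rfl
      · exact Or.inr ⟨h, le_rfl⟩
    have h01 : Le ((0, 0) : ℝ × ℝ) (1, q₁) := Or.inr ⟨one_pos, hq₁.le⟩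
    have hplat : ∀ q : ℝ, ∀ r s : ℝ × ℝ, r.2 = q → s.2 = q → Le r s ∨ Le s r := by
      rintro q ⟨a, b⟩ ⟨c, d⟩ rfl h
      simp only at h
      subst h
      rcases lt_trichotomy a c with h | h | h
      · exact Or.inl (Or.inr ⟨h, le_rfl⟩)
      · exact Or.inl (Or.inl (by rw [h]))
      · exact Or.inr (Or.inr ⟨h, le_rfl⟩)
    rintro r (hr | hr | hr) s (hs | hs | hs)
    · exact hTc r hr s hs
    · exact Or.inr ((hleft s hs).trans (hTb r hr).1)
    · exact Or.inl ((hTb r hr).2.trans (hright s hs))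
    · exact Or.inl ((hleft r hr).trans (hTb s hs).1)
    · exact hplat 0 r s hr.1 hs.1
    · exact Or.inl (((hleft r hr).trans h01).trans (hright s hs))
    · exact Or.inr ((hTb s hs).2.trans (hright r hr))
    · exact Or.inr (((hleft s hs).trans h01).trans (hright r hr))
    · exact hplat q₁ r s hr.1 hs.1
  · intro y hy
    rcases le_total y 0 with h | h
    · exact ⟨0, Or.inr (Or.inl ⟨rfl, h⟩)⟩
    rcases le_total 1 y with h' | h'
    · exact ⟨q₁, Or.inr (Or.inr ⟨rfl, h'⟩)⟩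
    obtain ⟨n, hn⟩ := hcov y hy
    obtain ⟨r, hr, rfl⟩ := hTy n y ⟨h, h'⟩ hn
    exact ⟨r.2, Or.inl hr⟩
  · intro x hx
    rcases le_total x 0 with h | h
    · exact ⟨(x, 0), Or.inr (Or.inl ⟨rfl, h⟩), by simp⟩
    rcases le_total (1 + q₁) x with h' | h'
    · exact ⟨(x - q₁, q₁), Or.inr (Or.inr ⟨rfl, by simp only; linarith⟩), by simp⟩
    obtain ⟨n, hn⟩ := hcov x hx
    obtain ⟨r, hr, hrx⟩ := hTx n x ⟨by simpa using h, h'⟩ hn
    exact ⟨r, Or.inl hr, hrx⟩
  · intro t ht
    exact Or.inr (Or.inl ⟨rfl, ht⟩)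
  · intro t ht
    exact Or.inr (Or.inr ⟨rfl, ht⟩)

/-- No dense analytic subgroup of the line is plastic. -/
theorem not_plastic (G : AddSubgroup ℝ) (hd : Dense (G : Set ℝ))
    (ha : AnalyticSet (G : Set ℝ)) : ¬ IsPlastic G := by
  classical
  intro hpl
  by_cases hG : (G : Set ℝ) = univ
  · -- halving
    have hmem : ∀ x : ℝ, x ∈ G := fun x => by
      have : x ∈ (G : Set ℝ) := by rw [hG]; exact mem_univ x
      exact this
    let f : G → G := fun x => ⟨(x : ℝ) / 2, hmem _⟩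
    have hf : Function.Bijective f := by
      constructor
      · intro x y hxy
        have := congrArg Subtype.val hxy
        simp only [f] at this
        exact Subtype.ext (by linarith)
      · intro y
        exact ⟨⟨2 * (y : ℝ), hmem _⟩, Subtype.ext (by simp [f])⟩
    have hdist : ∀ x y, dist (f x) (f y) = dist x y / 2 := by
      intro x y
      rw [Subtype.dist_eq, Subtype.dist_eq, Real.dist_eq, Real.dist_eq]
      simp only [f]
      rw [← sub_div, abs_div]
      norm_num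
    have h1 := hpl f hf (fun x y => by rw [hdist]; linarith [dist_nonneg (x := x) (y := y)])
      ⟨1, hmem 1⟩ ⟨0, hmem 0⟩
    rw [hdist, Subtype.dist_eq, Real.dist_eq] at h1
    norm_num at h1
  · obtain ⟨q₁, hq₁, T, hTG, hTc, hTy, hTx, hT0, hT1⟩ := exists_sigma G hd
      (small_of_analytic G ha hG)
    choose! m hm using hTy
    have hmG : ∀ y ∈ G, m y ∈ G := fun y hy => hTG _ (hm y hy)
    -- uniqueness and monotonicity
    have huniq : ∀ y a b : ℝ, (y, a) ∈ T → (y, b) ∈ T → a = b := by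
      intro y a b h1 h2
      rcases hTc _ h1 _ h2 with h | h
      · rcases h with h | h
        · exact (Prod.ext_iff.1 h).2
        · exact absurd h.1 (lt_irrefl _)
      · rcases h with h | h
        · exact (Prod.ext_iff.1 h).2.symm
        · exact absurd h.1 (lt_irrefl _)
    have hmono : ∀ y ∈ G, ∀ z ∈ G, y < z → m y ≤ m z := by
      intro y hy z hz hyz
      rcases hTc _ (hm y hy) _ (hm z hz) with h | h
      · exact h.snd
      · exact absurd h.fst (not_le.2 hyz)
    let e : G → G := fun y => ⟨(y : ℝ) + m y, G.add_mem y.2 (hmG y y.2)⟩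
    have he : ∀ y z : G, (y : ℝ) < z → (e z : ℝ) - e y ≥ z - y := by
      intro y z hyz
      have := hmono y y.2 z z.2 hyz
      simp only [e]
      linarith
    have hexp : ∀ y z : G, dist y z ≤ dist (e y) (e z) := by
      intro y z
      rw [Subtype.dist_eq, Subtype.dist_eq, Real.dist_eq, Real.dist_eq]
      rcases lt_trichotomy (y : ℝ) z with h | h | h
      · have := he y z h
        rw [abs_of_neg (by linarith), abs_of_neg (by linarith)]
        linarith
      · have : y = z := Subtype.ext h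
        rw [this]
        simp
      · have := he z y h
        rw [abs_of_pos (by linarith), abs_of_pos (by linarith)]
        linarith
    have hinj : Function.Injective e := by
      intro y z hyz
      have := hexp y z
      rw [hyz, dist_self] at this
      exact dist_le_zero.1 this
    have hsurj : Function.Surjective e := by
      intro x
      obtain ⟨r, hr, hrx⟩ := hTx x x.2
      have hr2 := hTG r hr
      have hr1 : r.1 ∈ G := by
        have : r.1 = x - r.2 := by linarith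
        rw [this]
        exact G.sub_mem x.2 hr2
      have hmr : m r.1 = r.2 := huniq r.1 _ _ (hm r.1 hr1) hr
      refine ⟨⟨r.1, hr1⟩, Subtype.ext ?_⟩
      simp only [e]
      rw [hmr, hrx]
    let E : G ≃ G := Equiv.ofBijective e ⟨hinj, hsurj⟩
    have hEs : ∀ x, e (E.symm x) = x := fun x => E.apply_symm_apply x
    have h1 := hpl E.symm E.symm.bijective (fun x y => by
      have := hexp (E.symm x) (E.symm y)
      rwa [hEs, hEs] at this)
    -- two points far apart
    obtain ⟨z, hzG, hz⟩ := hd.exists_mem_open isOpen_Ioi (⟨2, by norm_num⟩ : (Ioi (1 : ℝ)).Nonempty)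
    rw [mem_Ioi] at hz
    have h2 := h1 (e ⟨0, G.zero_mem⟩) (e ⟨z, hzG⟩)
    have h3 : ∀ y, E.symm (e y) = y := fun y => E.symm_apply_apply y
    rw [h3, h3, Subtype.dist_eq, Subtype.dist_eq, Real.dist_eq, Real.dist_eq] at h2
    have m0 : m 0 = 0 := huniq 0 _ _ (hm 0 G.zero_mem) (hT0 0 le_rfl)
    have mz : m z = q₁ := huniq z _ _ (hm z hzG) (hT1 z hz.le)
    simp only [e, m0, mz] at h2
    rw [abs_of_neg (by linarith), abs_of_neg (by linarith)] at h2
    linarith

/-- **Negative answer to both questions.** -/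
theorem result :
    (∀ G : AddSubgroup ℝ, Dense (G : Set ℝ) → AnalyticSet (G : Set ℝ) →
      ∃ f : G → G, Function.Bijective f ∧ (∀ x y, dist (f x) (f y) ≤ dist x y) ∧
        ∃ x y, dist (f x) (f y) < dist x y) ∧
    ¬ ∀ (E : Type) [NormedAddCommGroup E] [NormedSpace ℝ E] [TopologicalSpace.SeparableSpace E],
      ∃ G : AddSubgroup E, Dense (G : Set E) ∧ AnalyticSet (G : Set E) ∧ IsPlastic G := by
  refine ⟨?_, ?_⟩
  · intro G hd ha
    have h := not_plastic G hd ha
    unfold IsPlastic at h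
    push Not at h
    obtain ⟨f, hf, hne, x, y, hxy⟩ := h
    exact ⟨f, hf, hne, x, y, lt_of_le_of_ne (hne x y) hxy⟩
  · intro h
    obtain ⟨G, hd, ha, hp⟩ := h ℝ
    exact not_plastic G hd ha hp

end Pool.Agent.Results.MP_4fc6a2_gt.NoAnalyticPlasticSubgroup
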